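import Pool.Agent.H65.EN.Targets

/-!
The number of the small cells with a large kernel (row RCN of the board enx).
-/

set_option autoImplicit false

open Finset MeasureTheory
open scoped Polynomial

namespace Pool.Agent.H57.EN

open Pool.Agent.H24.CL Pool.Agent.H24.LV Pool.Agent.H31.LV Pool.Agent.H50.LV Pool.Agent.H65.EN

/-! ### Hasse derivatives -/

/-- Taylor's formula for the Hasse derivatives -/
lemma taylor_bd (P : ℝ[X]) (d : ℕ) (z z' H : ℝ) (hP : P.natDegree ≤ d) (hH : 0 < H)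
    (hz : |z' - z| ≤ 1 / H)
    (hb : ∀ r : ℕ, 1 ≤ r → r ≤ d → |(Polynomial.hasseDeriv r P).eval z| ≤ H ^ r) (r : ℕ)
    (hr : 1 ≤ r) : |(Polynomial.hasseDeriv r P).eval z'| ≤ 2 ^ (d + 1) * H ^ r := by
  set G : ℝ[X] := Polynomial.taylor z P with hG
  set w : ℝ := z' - z with hw
  have h1 : (Polynomial.hasseDeriv r P).eval z' = (Polynomial.hasseDeriv r G).eval w := by
    rw [← Polynomial.taylor_coeff, ← Polynomial.taylor_coeff, hG, Polynomial.taylor_taylor,
      hw]
    simp only [sub_add_cancel]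
  have hGd : G.natDegree < d + 1 := by
    rw [hG, Polynomial.natDegree_taylor]; omega
  have h2 : (Polynomial.hasseDeriv r G).eval w =
      ∑ i ∈ range (d + 1), (i.choose r : ℝ) * G.coeff i * w ^ (i - r) := by
    rw [Polynomial.hasseDeriv_apply, Polynomial.sum_over_range' _ _ (d + 1) hGd,
      Polynomial.eval_finsetSum]
    · refine Finset.sum_congr rfl fun i _ => ?_
      rw [Polynomial.eval_monomial]
    · intro n; simp
  rw [h1, h2]
  have h3 : ∀ i ∈ range (d + 1), |(i.choose r : ℝ) * G.coeff i * w ^ (i - r)| ≤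
      (2 : ℝ) ^ i * H ^ r := by
    intro i hi
    rcases lt_or_ge i r with hir | hir
    · rw [Nat.choose_eq_zero_of_lt hir]
      simp only [Nat.cast_zero, zero_mul, abs_zero]
      positivity
    · have hGi : |G.coeff i| ≤ H ^ i := by
        rw [hG, Polynomial.taylor_coeff]
        exact hb i (by omega) (by simpa [Nat.lt_succ_iff] using hi)
      have hwi : |w| ^ (i - r) ≤ (1 / H) ^ (i - r) := pow_le_pow_left₀ (abs_nonneg _) hz _
      have hc : ((i.choose r : ℕ) : ℝ) ≤ 2 ^ i := by exact_mod_cast Nat.choose_le_two_pow i r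
      rw [abs_mul, abs_mul, abs_pow, Nat.abs_cast]
      calc (i.choose r : ℝ) * |G.coeff i| * |w| ^ (i - r)
          ≤ 2 ^ i * H ^ i * (1 / H) ^ (i - r) := by gcongr
        _ = 2 ^ i * H ^ r := by
            have h4 : H ^ i = H ^ r * H ^ (i - r) := by rw [← pow_add]; congr 1; omega
            rw [h4, one_div, inv_pow]
            have h5 : H ^ (i - r) ≠ 0 := (pow_pos hH _).ne'
            field_simp
  calc |∑ i ∈ range (d + 1), (i.choose r : ℝ) * G.coeff i * w ^ (i - r)|
      ≤ ∑ i ∈ range (d + 1), |(i.choose r : ℝ) * G.coeff i * w ^ (i - r)| :=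
        Finset.abs_sum_le_sum_abs _ _
    _ ≤ ∑ i ∈ range (d + 1), (2 : ℝ) ^ i * H ^ r := Finset.sum_le_sum h3
    _ = (∑ i ∈ range (d + 1), (2 : ℝ) ^ i) * H ^ r := by rw [Finset.sum_mul]
    _ ≤ 2 ^ (d + 1) * H ^ r := by
        apply mul_le_mul_of_nonneg_right _ (by positivity)
        rw [geom_sum_eq (by norm_num)]
        have : (0 : ℝ) < 2 ^ (d + 1) := by positivity
        norm_num

/-- the phase of the kernel as a polynomial -/
noncomputable def Qp {k : ℕ} (M₁ : ℕ) (a : ℝ) (c : Fin k → ℤ) : ℝ[X] :=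
  ∑ i : Fin k, if i.val = 0 then 0 else Polynomial.C ((c i : ℝ) / M₁) *
    ((Polynomial.X + Polynomial.C a) ^ (i.val + 1) - Polynomial.X ^ (i.val + 1))

lemma Qp_eval {k : ℕ} (M₁ : ℕ) (a : ℝ) (c : Fin k → ℤ) (z : ℝ) :
    (Qp M₁ a c).eval z = ∑ i : Fin k, if i.val = 0 then 0 else
      (c i : ℝ) / M₁ * ((z + a) ^ (i.val + 1) - z ^ (i.val + 1)) := by
  unfold Qp
  rw [Polynomial.eval_finsetSum]
  refine Finset.sum_congr rfl fun i _ => ?_
  split_ifs <;> simp

lemma Qp_hasse {k : ℕ} (M₁ : ℕ) (a : ℝ) (c : Fin k → ℤ) (z : ℝ) (r : ℕ) :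
    (Polynomial.hasseDeriv r (Qp M₁ a c)).eval z = ∑ i : Fin k, if i.val = 0 then 0 else
      (c i : ℝ) / M₁ * (((z + a) ^ (i.val + 1 - r) - z ^ (i.val + 1 - r)) *
        ((i.val + 1).choose r : ℝ)) := by
  rw [← Polynomial.taylor_coeff]
  unfold Qp
  rw [map_sum, Polynomial.finsetSum_coeff]
  refine Finset.sum_congr rfl fun i _ => ?_
  split_ifs
  · simp
  · have h1 : Polynomial.taylor z (Polynomial.C ((c i : ℝ) / M₁) *
        ((Polynomial.X + Polynomial.C a) ^ (i.val + 1) - Polynomial.X ^ (i.val + 1))) =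
        Polynomial.C ((c i : ℝ) / M₁) * ((Polynomial.X + Polynomial.C (z + a)) ^ (i.val + 1) -
          (Polynomial.X + Polynomial.C z) ^ (i.val + 1)) := by
      rw [Polynomial.taylor_apply]
      simp only [Polynomial.mul_comp, Polynomial.sub_comp, Polynomial.pow_comp,
        Polynomial.add_comp, Polynomial.X_comp, Polynomial.C_comp, Polynomial.C_add]
      ring
    rw [h1, Polynomial.coeff_C_mul, Polynomial.coeff_sub, Polynomial.coeff_X_add_C_pow,
      Polynomial.coeff_X_add_C_pow]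
    ring

lemma Qp_deg {k : ℕ} (M₁ : ℕ) (a : ℝ) (c : Fin k → ℤ) : (Qp M₁ a c).natDegree ≤ k - 1 := by
  rw [Polynomial.natDegree_le_iff_coeff_eq_zero]
  intro n hn
  unfold Qp
  rw [Polynomial.finsetSum_coeff]
  refine Finset.sum_eq_zero fun i _ => ?_
  have hi := i.2
  split_ifs
  · simp
  · rw [Polynomial.coeff_C_mul, Polynomial.coeff_sub, Polynomial.coeff_X_add_C_pow,
      Polynomial.coeff_X_pow]
    split_ifs with h
    · subst h; simp
    · rw [Nat.choose_eq_zero_of_lt (by omega)]; simp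

/-! ### The kernel -/

lemma ee_e (x : ℝ) : ee x = e (x : UnitAddCircle) := by
  unfold ee e
  rw [AddCircle.toCircle_apply_mk, Circle.coe_exp]
  simp

lemma KP_eq {k : ℕ} (N M₁ h : ℕ) (c : Fin k → ℤ) (hN : 0 < N) :
    KP N (ec N M₁ c) 0 h = OP (Qp M₁ ((h : ℝ) / N) c) 0 0 (1 - (h : ℝ) / N) := by
  have hN0 : (N : ℝ) ≠ 0 := by exact_mod_cast hN.ne'
  unfold KP OP
  have h1 := intervalIntegral.integral_comp_mul_left (a := (0 : ℝ)) (b := 1 - (h : ℝ) / N)
    (fun y : ℝ => ee (Ps (ec N M₁ c) (y + h) - Ps (ec N M₁ c) y)) hN0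
  have e1 : (N : ℝ) * (1 - (h : ℝ) / N) = 0 + N - h := by field_simp; ring
  rw [mul_zero, e1] at h1
  have h2 : (1 / (N : ℂ)) * ∫ y in (0 : ℝ)..(0 + N - h),
      ee (Ps (ec N M₁ c) (y + h) - Ps (ec N M₁ c) y) =
      (N : ℝ)⁻¹ • ∫ y in (0 : ℝ)..(0 + N - h),
        ee (Ps (ec N M₁ c) (y + h) - Ps (ec N M₁ c) y) := by
    rw [Complex.real_smul]
    push_cast
    rw [one_div]
  rw [h2, ← h1]
  refine intervalIntegral.integral_congr fun z _ => ?_
  show ee (Ps (ec N M₁ c) ((N : ℝ) * z + h) - Ps (ec N M₁ c) ((N : ℝ) * z)) = _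
  rw [ee_e]
  congr 2
  rw [zero_mul, zero_add, Qp_eval]
  unfold Ps
  rw [← Finset.sum_sub_distrib]
  refine Finset.sum_congr rfl fun i _ => ?_
  split_ifs
  · simp
  · unfold ec
    have e2 : (N : ℝ) * z + h = N * (z + (h : ℝ) / N) := by field_simp
    rw [e2, mul_pow, mul_pow]
    have h3 : (N : ℝ) ^ (i.val + 1) ≠ 0 := pow_ne_zero _ hN0
    rcases eq_or_ne (M₁ : ℝ) 0 with h0 | h0
    · rw [h0]; simp
    · field_simp

/-! ### Counting -/

/-- the difference of two cells which agree above the coordinate `j` -/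
lemma hasse_diff {k : ℕ} (M₁ : ℕ) (a z : ℝ) (c c' : Fin k → ℤ) (j : Fin k) (hj : j.val ≠ 0)
    (h : ∀ i, j < i → c i = c' i) :
    (Polynomial.hasseDeriv j.val (Qp M₁ a c)).eval z -
      (Polynomial.hasseDeriv j.val (Qp M₁ a c')).eval z =
      ((c j : ℝ) - c' j) / M₁ * (a * ((j.val : ℝ) + 1)) := by
  rw [Qp_hasse, Qp_hasse, ← Finset.sum_sub_distrib, Finset.sum_eq_single j]
  · rw [if_neg hj, if_neg hj]
    have h1 : j.val + 1 - j.val = 1 := by omega
    have h2 : ((j.val + 1).choose j.val : ℝ) = (j.val : ℝ) + 1 := by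
      rw [Nat.choose_succ_self_right]; push_cast; ring
    rw [h1, h2]
    ring
  · intro i _ hij
    rcases lt_or_gt_of_ne hij with h1 | h1
    · have h2 : i.val + 1 - j.val = 0 := by have : i.val < j.val := h1; omega
      rw [h2]
      split_ifs <;> simp
    · rw [h i h1, sub_self]
  · intro hj'
    exact absurd (Finset.mem_univ j) hj'

lemma prod_le (k : ℕ) (w H : ℝ) :
    ∏ j : Fin k, (if j.val = 0 then 1 else w * H ^ j.val) =
      w ^ (k - 1) * H ^ (KN (k - 1)) := by
  rw [Fin.prod_univ_eq_prod_range (fun j => if j = 0 then (1 : ℝ) else w * H ^ j) k]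
  rcases k with _ | d
  · simp [KN]
  · rw [Finset.prod_range_succ']
    simp only [if_true, mul_one, Nat.add_sub_cancel]
    have h1 : ∀ j ∈ range d, (if j + 1 = 0 then (1 : ℝ) else w * H ^ (j + 1)) =
        w * H ^ (j + 1) := fun j _ => by rw [if_neg (by omega)]
    rw [Finset.prod_congr rfl h1, Finset.prod_mul_distrib, Finset.prod_const, card_range,
      Finset.prod_pow_eq_pow_sum]
    congr 2
    have h2 : ∑ i ∈ range (d + 1), i = (d + 1) * (d + 1 - 1) / 2 := Finset.sum_range_id (d + 1)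
    rw [Finset.sum_range_succ', add_zero] at h2
    rw [h2, KN, Nat.add_sub_cancel, mul_comm]

open Classical in
lemma cell_card (hTRI : T_TRI) (k M₁ D : ℕ) (a z A H : ℝ) (hM : 1 ≤ M₁) (ha : 0 < a)
    (ha1 : a ≤ 1) (hA : 1 ≤ A) (hH : 1 ≤ H) :
    (((Dc k D).filter fun c => ∀ r : ℕ, 1 ≤ r → r ≤ k - 1 →
      |(Polynomial.hasseDeriv r (Qp M₁ a c)).eval z| ≤ A * H ^ r).card : ℝ) ≤
      (3 * A * (M₁ / a)) ^ (k - 1) * H ^ (KN (k - 1)) := by
  have hM1 : (1 : ℝ) ≤ M₁ := by exact_mod_cast hM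
  have hW : 1 ≤ (M₁ : ℝ) / a := by rw [le_div_iff₀ ha]; linarith
  set S := (Dc k D).filter fun c => ∀ r : ℕ, 1 ≤ r → r ≤ k - 1 →
      |(Polynomial.hasseDeriv r (Qp M₁ a c)).eval z| ≤ A * H ^ r with hS
  set s : Fin k → ℕ := fun j => if j.val = 0 then 1 else
    ⌊3 * A * (M₁ / a) * H ^ j.val⌋₊ with hs
  have h1 : S.card ≤ ∏ j, s j := by
    refine hTRI k S s fun j f hf => ?_
    rw [hS, mem_filter] at hf
    by_cases hj : j.val = 0
    · have h2 : s j = 1 := by rw [hs]; simp [hj]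
      rw [h2]
      refine (Finset.card_le_card (t := {(0 : ℤ)}) ?_).trans (by simp)
      intro x hx
      rw [mem_image] at hx
      obtain ⟨g, hg, rfl⟩ := hx
      rw [mem_filter, hS, mem_filter] at hg
      have h3 := hg.1.1
      unfold Dc at h3
      rw [Fintype.mem_piFinset] at h3
      have h4 := h3 j
      rw [if_pos hj] at h4
      exact h4
    · have h2 : s j = ⌊3 * A * (M₁ / a) * H ^ j.val⌋₊ := by rw [hs]; simp [hj]
      rw [h2]
      have hHj : 1 ≤ H ^ j.val := one_le_pow₀ hH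
      set L : ℝ := A * (M₁ / a) * H ^ j.val with hL
      have hL1 : 1 ≤ L := by
        rw [hL]
        exact one_le_mul_of_one_le_of_one_le (one_le_mul_of_one_le_of_one_le hA hW) hHj
      apply Nat.le_floor
      refine le_trans (b := (((Finset.Icc (f j - ⌊L⌋) (f j + ⌊L⌋)).card : ℕ) : ℝ)) ?_ ?_
      · refine Nat.cast_le.mpr (Finset.card_le_card ?_)
        intro x hx
        rw [mem_image] at hx
        obtain ⟨g, hg, rfl⟩ := hx
        rw [mem_filter, hS, mem_filter] at hg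
        have hj1 : 1 ≤ j.val := by omega
        have hj2 : j.val ≤ k - 1 := by have := j.2; omega
        have e1 := hg.1.2 j.val hj1 hj2
        have e2 := hf.2 j.val hj1 hj2
        have e3 := hasse_diff M₁ a z g f j hj hg.2
        have e4 : |((g j : ℝ) - f j) / M₁ * (a * ((j.val : ℝ) + 1))| ≤ 2 * (A * H ^ j.val) := by
          rw [← e3]
          calc _ ≤ |(Polynomial.hasseDeriv j.val (Qp M₁ a g)).eval z| +
                |(Polynomial.hasseDeriv j.val (Qp M₁ a f)).eval z| := abs_sub _ _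
            _ ≤ _ := by linarith
        have hj1' : (1 : ℝ) ≤ j.val := by exact_mod_cast hj1
        have hM0 : (0 : ℝ) < M₁ := by linarith
        have e5 : |(g j : ℝ) - f j| ≤ L := by
          rw [abs_mul, abs_div, abs_of_pos hM0,
            abs_of_pos (show 0 < a * ((j.val : ℝ) + 1) by positivity)] at e4
          have e6 : |(g j : ℝ) - f j| * (a * 2) / M₁ ≤ 2 * (A * H ^ j.val) := by
            refine le_trans ?_ e4
            rw [div_mul_eq_mul_div]
            apply div_le_div_of_nonneg_right _ hM0.le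
            apply mul_le_mul_of_nonneg_left _ (abs_nonneg _)
            apply mul_le_mul_of_nonneg_left _ ha.le
            linarith
          rw [div_le_iff₀ hM0] at e6
          rw [hL]
          have e7 : A * (M₁ / a) * H ^ j.val = (A * H ^ j.val * M₁) / a := by ring
          rw [e7, le_div_iff₀ ha]
          linarith
        rw [abs_le] at e5
        rw [Finset.mem_Icc]
        constructor
        · have e8 : f j - g j ≤ ⌊L⌋ := by
            rw [Int.le_floor]; push_cast; linarith [e5.1]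
          linarith
        · have e8 : g j - f j ≤ ⌊L⌋ := by
            rw [Int.le_floor]; push_cast; linarith [e5.2]
          linarith
      · rw [Int.card_Icc]
        have hf0 : 0 ≤ ⌊L⌋ := Int.floor_nonneg.mpr (by linarith)
        have e9 : (((f j + ⌊L⌋ + 1 - (f j - ⌊L⌋)).toNat : ℕ) : ℝ) = 2 * (⌊L⌋ : ℝ) + 1 := by
          have e10 : ((f j + ⌊L⌋ + 1 - (f j - ⌊L⌋)).toNat : ℤ) = 2 * ⌊L⌋ + 1 := by
            rw [Int.toNat_of_nonneg (by linarith)]; ring
          exact_mod_cast e10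
        rw [e9]
        have e11 : (⌊L⌋ : ℝ) ≤ L := Int.floor_le L
        have e12 : 3 * A * (M₁ / a) * H ^ j.val = 3 * L := by rw [hL]; ring
        rw [e12]
        linarith
  calc ((S.card : ℕ) : ℝ) ≤ ((∏ j, s j : ℕ) : ℝ) := Nat.cast_le.mpr h1
    _ = ∏ j, (s j : ℝ) := by push_cast; rfl
    _ ≤ ∏ j : Fin k, (if j.val = 0 then 1 else 3 * A * (M₁ / a) * H ^ j.val) := by
        refine Finset.prod_le_prod (fun _ _ => Nat.cast_nonneg _) fun j _ => ?_
        rw [hs]
        dsimp only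
        split_ifs
        · simp
        · exact Nat.floor_le (by positivity)
    _ = _ := prod_le k _ _

theorem pf_RCN (h1 : T_PCS) (h2 : T_TRI) : T_RCN := by
  classical
  intro k hk
  obtain ⟨C, hC, hP⟩ := h1 (k - 1)
  have hC0 : 0 < C := by linarith
  refine ⟨3 * (3 * 2 ^ (k - 1 + 1)) ^ (k - 1) * (2 * C) ^ (KN (k - 1) + 1), ?_, ?_⟩
  · have i1 : (1 : ℝ) ≤ (3 * 2 ^ (k - 1 + 1)) ^ (k - 1) := by
      apply one_le_pow₀
      have : (1 : ℝ) ≤ 2 ^ (k - 1 + 1) := one_le_pow₀ (by norm_num)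
      linarith
    have i2 : (1 : ℝ) ≤ (2 * C) ^ (KN (k - 1) + 1) := one_le_pow₀ (by linarith)
    have i3 : (1 : ℝ) ≤ 3 * (3 * 2 ^ (k - 1 + 1)) ^ (k - 1) := by linarith
    exact one_le_mul_of_one_le_of_one_le i3 i2
  · intro N M₁ h D y hM hh hhN hy
    have hN : 0 < N := by omega
    have hN0 : (0 : ℝ) < N := by exact_mod_cast hN
    have hh0 : (0 : ℝ) < h := by exact_mod_cast hh
    have hhN' : (h : ℝ) < N := by exact_mod_cast hhN
    set a : ℝ := (h : ℝ) / N with ha
    have ha0 : 0 < a := by positivity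
    have ha1 : a < 1 := by rw [ha, div_lt_one hN0]; exact hhN'
    set H : ℝ := 2 * C * y with hH
    have hH1 : 1 ≤ H := by
      rw [hH]
      exact one_le_mul_of_one_le_of_one_le (by linarith) hy
    have hH0 : 0 < H := by linarith
    set B : ℕ := ⌈H⌉₊ with hB
    have hB1 : H ≤ B := Nat.le_ceil H
    have hB2 : (B : ℝ) < H + 1 := Nat.ceil_lt_add_one hH0.le
    have hB0 : (0 : ℝ) < B := by linarith
    set A : ℝ := 2 ^ (k - 1 + 1) with hA
    have hA1 : 1 ≤ A := one_le_pow₀ (by norm_num)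
    set T : ℕ → Finset (Fin k → ℤ) := fun j => (Dc k D).filter fun c => ∀ r : ℕ, 1 ≤ r →
      r ≤ k - 1 → |(Polynomial.hasseDeriv r (Qp M₁ a c)).eval ((j : ℝ) / B)| ≤ A * H ^ r with hT
    have hsub : ((Dc k D).filter fun c => 1 / y ≤ ‖KP N (ec N M₁ c) 0 h‖) ⊆
        (range (B + 1)).biUnion T := by
      intro c hc
      rw [mem_filter] at hc
      rw [KP_eq N M₁ h c hN] at hc
      rw [mem_biUnion]
      have hex : ∃ z ∈ Set.Icc (0 : ℝ) (1 - a), ∀ r : ℕ, 1 ≤ r → r ≤ k - 1 →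
          |(Polynomial.hasseDeriv r (Qp M₁ a c)).eval z| ≤ H ^ r := by
        by_contra hcon
        push Not at hcon
        have h3 := hP (Qp M₁ a c) 0 (1 - a) H (Qp_deg M₁ a c) (by norm_num) (by linarith)
          (by linarith) hH0 (fun z hz => by
            obtain ⟨r, hr1, hr2, hr3⟩ := hcon z hz
            exact ⟨r, hr1, hr2, hr3.le⟩)
        have h4 : C / H < 1 / y := by
          rw [hH, div_lt_div_iff₀ (by positivity) (by linarith)]
          nlinarith
        linarith [hc.2]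
      obtain ⟨z, hz, hzr⟩ := hex
      have hz0 : 0 ≤ z := hz.1
      have hz1 : z ≤ 1 := by linarith [hz.2]
      refine ⟨⌊z * B⌋₊, ?_, ?_⟩
      · rw [mem_range]
        have : ⌊z * B⌋₊ ≤ B := by
          apply Nat.floor_le_of_le
          nlinarith
        omega
      · rw [hT]
        dsimp only
        rw [mem_filter]
        refine ⟨hc.1, fun r hr1 _ => ?_⟩
        refine taylor_bd _ (k - 1) z _ H (Qp_deg M₁ a c) hH0 ?_ hzr r hr1
        have f1 : ((⌊z * B⌋₊ : ℕ) : ℝ) ≤ z * B := Nat.floor_le (by positivity)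
        have f2 : z * B < ⌊z * B⌋₊ + 1 := Nat.lt_floor_add_one _
        have f3 : (⌊z * B⌋₊ : ℝ) / B - z = ((⌊z * B⌋₊ : ℝ) - z * B) / B := by field_simp
        rw [f3, abs_div, abs_of_pos hB0]
        have f4 : |(⌊z * B⌋₊ : ℝ) - z * B| ≤ 1 := by rw [abs_le]; constructor <;> linarith
        calc |(⌊z * B⌋₊ : ℝ) - z * B| / B ≤ 1 / B := div_le_div_of_nonneg_right f4 hB0.le
          _ ≤ 1 / H := div_le_div_of_nonneg_left zero_le_one hH0 hB1
    have hWe : (M₁ : ℝ) / a = M₁ * N / h := by rw [ha]; field_simp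
    calc (((Dc k D).filter fun c => 1 / y ≤ ‖KP N (ec N M₁ c) 0 h‖).card : ℝ)
        ≤ (((range (B + 1)).biUnion T).card : ℝ) := Nat.cast_le.mpr (Finset.card_le_card hsub)
      _ ≤ ((∑ j ∈ range (B + 1), (T j).card : ℕ) : ℝ) := Nat.cast_le.mpr Finset.card_biUnion_le
      _ = ∑ j ∈ range (B + 1), ((T j).card : ℝ) := by push_cast; rfl
      _ ≤ ∑ j ∈ range (B + 1), (3 * A * (M₁ / a)) ^ (k - 1) * H ^ (KN (k - 1)) :=
          Finset.sum_le_sum fun j _ =>
            cell_card h2 k M₁ D a ((j : ℝ) / B) A H hM ha0 ha1.le hA1 hH1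
      _ = ((B : ℝ) + 1) * ((3 * A * (M₁ / a)) ^ (k - 1) * H ^ (KN (k - 1))) := by
          rw [Finset.sum_const, card_range, nsmul_eq_mul]; push_cast; ring
      _ ≤ (3 * H) * ((3 * A * (M₁ / a)) ^ (k - 1) * H ^ (KN (k - 1))) := by
          apply mul_le_mul_of_nonneg_right _ (by positivity)
          linarith
      _ = _ := by
          rw [hWe, mul_pow (3 * A), hH, mul_pow (2 * C) y, pow_succ (2 * C),
            pow_succ y]
          ring

end Pool.Agent.H57.EN
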